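import Pool.Agent.W4.CF.Deg3KAll

/-!
The abc conjecture for three points of the projective line over a number field `K` that need not be
rational: the zeros of a binary cubic form with rational coefficients, for instance three conjugate
cubic numbers. Bounds for the number of the rational points `x` that violate the inequality.
-/

set_option autoImplicit false

namespace Pool.Agent.Results.MP_4d5ce1_nt.ConjugatePoints

open NumberField IsDedekindDomain

/-- the absolute logarithmic height of the point `[x : 1]` -/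
noncomputable def height {K : Type} [Field K] [NumberField K] (x : K) : ℝ :=
  (∑ w : InfinitePlace K, (w.mult : ℝ) * Real.log (max (w x) (w 1)) +
    ∑ᶠ v : HeightOneSpectrum (RingOfIntegers K),
      Real.log (max (FinitePlace.mk v x) (FinitePlace.mk v 1))) /
    (Module.finrank ℚ K : ℝ)

/-- the truncated counting function of the point `[x : 1]` with respect to the points
`[(α l).1 : (α l).2]`: the sum over the primes outside `T` and over `l` of the truncated local
heights -/
noncomputable def counting {K : Type} [Field K] [NumberField K]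
    (T : Set (HeightOneSpectrum (RingOfIntegers K))) {q : ℕ} (α : Fin q → K × K) (x : K) : ℝ :=
  ∑ᶠ (v : HeightOneSpectrum (RingOfIntegers K)) (_ : v ∉ T),
    ∑ l : Fin q,
      min
        (Real.log
            (max (FinitePlace.mk v x) (FinitePlace.mk v 1) *
              max (FinitePlace.mk v (α l).1) (FinitePlace.mk v (α l).2) /
              FinitePlace.mk v (x * (α l).2 - 1 * (α l).1)) /
          (Module.finrank ℚ K : ℝ))
        (Real.log (Ideal.absNorm v.asIdeal : ℝ) / (Module.finrank ℚ K : ℝ))

/-- the set of the `x ∈ ℚ` of height `H(x) ≤ B`, different from the `α_l`, with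
`∑_{v ∉ T} ∑_l λ^(1)_v(α_l, x) < (3 - κ) h(x) + c₀` -/
def exceptional {K : Type} [Field K] [NumberField K]
    (T : Set (HeightOneSpectrum (RingOfIntegers K))) (α : Fin 3 → K × K)
    (κ c₀ B : ℝ) : Set ℚ :=
  {x : ℚ | (∀ l, (x : K) * (α l).2 - 1 * (α l).1 ≠ 0) ∧ Real.exp (height (x : K)) ≤ B ∧
    counting T α (x : K) < (3 - κ) * height (x : K) + c₀}

/-- Let `K` be a number field, `T` a finite set of primes of `K`, and `α_1, α_2, α_3` distinct points
of the projective line over `K` which are the zeros of a nonzero binary cubic form with integral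
coefficients. Let `2 ≤ κ ≤ 3`, `c₀` real and `δ > 0`. Then at most
`C B ^ (min (11 (3 - κ) / 12) ((6 (3 - κ) + 1) / 8) + δ)` rational numbers `x` of height
`H(x) ≤ B`, different from the `α_l`, satisfy
`∑_{v ∉ T} ∑_l λ^(1)_v(α_l, x) < (3 - κ) h(x) + c₀`. -/
theorem result :
    ∀ (K : Type) [Field K] [NumberField K]
      (T : Set (HeightOneSpectrum (RingOfIntegers K))), T.Finite →
      ∀ (α : Fin 3 → K × K),
        (∀ i, α i ≠ 0) →
        (∀ i j, i ≠ j → (α i).1 * (α j).2 - (α i).2 * (α j).1 ≠ 0) →
        ∀ a b c d : ℤ, (a, b, c, d) ≠ (0, 0, 0, 0) →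
        (∀ i, (a : K) * (α i).1 ^ 3 + b * (α i).1 ^ 2 * (α i).2 +
          c * (α i).1 * (α i).2 ^ 2 + d * (α i).2 ^ 3 = 0) →
        ∀ κ c₀ δ : ℝ, 2 ≤ κ → κ ≤ 3 → 0 < δ →
          ∃ C : ℝ, 0 < C ∧ ∀ B : ℝ, 1 ≤ B →
            (exceptional T α κ c₀ B).Finite ∧
            ((exceptional T α κ c₀ B).ncard : ℝ) ≤
              C * B ^ (min (11 * (3 - κ) / 12) ((6 * (3 - κ) + 1) / 8) + δ) := by
  intro K _ _ T hT α hα0 hα a b c d hne hF κ c₀ δ h2 h3 hδ
  exact Pool.Agent.W4.CF.deg3K_main K T hT α hα0 hα a b c d hne hF κ c₀ δ h2 h3 hδ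

end Pool.Agent.Results.MP_4d5ce1_nt.ConjugatePoints
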