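import Mathlib
import Pool.Agent.W221.ExcUp
import Pool.Agent.W221.SelE3

set_option autoImplicit false

namespace Pool.Agent.Results.MP_4d5ce1_nt.ExceptionalSetExponents

open NumberField IsDedekindDomain Filter Topology

/-- the absolute logarithmic height of the point `[x : 1]` -/
noncomputable def height {K : Type} [Field K] [NumberField K] (x : K) : ℝ :=
  (∑ w : InfinitePlace K, (w.mult : ℝ) * Real.log (max (w x) (w 1)) +
    ∑ᶠ v : HeightOneSpectrum (RingOfIntegers K),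
      Real.log (max (FinitePlace.mk v x) (FinitePlace.mk v 1))) /
    (Module.finrank ℚ K : ℝ)

/-- the truncated counting function of the point `[x : 1]` with respect to the points
`[(α l).1 : (α l).2]`: the sum over the primes outside `T` and over `l` of the truncated local
heights -/
noncomputable def counting {K : Type} [Field K] [NumberField K]
    (T : Set (HeightOneSpectrum (RingOfIntegers K))) {q : ℕ} (α : Fin q → K × K) (x : K) : ℝ :=
  ∑ᶠ (v : HeightOneSpectrum (RingOfIntegers K)) (_ : v ∉ T),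
    ∑ l : Fin q,
      min
        (Real.log
            (max (FinitePlace.mk v x) (FinitePlace.mk v 1) *
              max (FinitePlace.mk v (α l).1) (FinitePlace.mk v (α l).2) /
              FinitePlace.mk v (x * (α l).2 - 1 * (α l).1)) /
          (Module.finrank ℚ K : ℝ))
        (Real.log (Ideal.absNorm v.asIdeal : ℝ) / (Module.finrank ℚ K : ℝ))

/-- the set of the `x ∈ K` of height `H(x) ≤ B`, different from the `α_l`, with
`∑_{v ∉ T} ∑_l λ^(1)_v(α_l, x) < (q - κ) h(x) + c` -/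
def exceptional {K : Type} [Field K] [NumberField K]
    (T : Set (HeightOneSpectrum (RingOfIntegers K))) {q : ℕ} (α : Fin q → K × K)
    (κ c B : ℝ) : Set K :=
  {x : K | (∀ l, x * (α l).2 - 1 * (α l).1 ≠ 0) ∧ Real.exp (height x) ≤ B ∧
    counting T α x < ((q : ℝ) - κ) * height x + c}

/-- the exponent for three points: a continuous function on `[0, 3]`, linear on each of the
intervals between `0, 1, 4/3, 17/12, 3/2, 17/10, 7/4, 9/5, 13/7, 19/10, 8512/4185, 94/45, 47/22,
24/11, 3`, with the values `2, 1, 1, 11/12, 7/8, 3/4, 3/4, 7/10, 47/70, 47/70, 26/45, 26/45, 6/11,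
6/11, 0` at these points -/
noncomputable def expoThree (t : ℝ) : ℝ :=
  if t ≤ 1 then 2 - t
  else if t ≤ 4 / 3 then 1
  else if t ≤ 17 / 12 then 7 / 3 - t
  else if t ≤ 3 / 2 then 13 / 8 - t / 2
  else if t ≤ 17 / 10 then 29 / 16 - 5 * t / 8
  else if t ≤ 7 / 4 then 3 / 4
  else if t ≤ 9 / 5 then 5 / 2 - t
  else if t ≤ 13 / 7 then 8 / 5 - t / 2
  else if t ≤ 19 / 10 then 47 / 70
  else if t ≤ 8512 / 4185 then 2 - 93 * t / 133
  else if t ≤ 94 / 45 then 26 / 45
  else if t ≤ 47 / 22 then 2 - 32 * t / 47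
  else if t ≤ 24 / 11 then 6 / 11
  else 2 - 2 * t / 3

private theorem exact_part :
    ∀ (K : Type) [Field K] [NumberField K]
      (T : Set (HeightOneSpectrum (RingOfIntegers K))), T.Finite →
      ∀ (q : ℕ), 2 ≤ q → ∀ (α : Fin q → K × K),
        (∀ i, α i ≠ 0) →
        (∀ i j, i ≠ j → (α i).1 * (α j).2 - (α i).2 * (α j).1 ≠ 0) →
        ∀ κ c : ℝ, 0 ≤ κ → κ < 2 →
          (∀ B : ℝ, 1 ≤ B → (exceptional T α κ c B).Finite) ∧
          (∃ C : ℝ, 0 < C ∧ ∀ᶠ B : ℝ in atTop,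
            C * B ^ ((Module.finrank ℚ K : ℝ) * (2 - κ)) ≤
              ((exceptional T α κ c B).ncard : ℝ)) ∧
          (κ ≤ 6 / 7 ∨ (q = 3 ∧ κ ≤ 1) ∨ q = 2 →
            (∀ δ : ℝ, 0 < δ → ∃ C : ℝ, ∀ B : ℝ, 1 ≤ B →
              ((exceptional T α κ c B).ncard : ℝ) ≤
                C * B ^ ((Module.finrank ℚ K : ℝ) * (2 - κ) + δ)) ∧
            Tendsto (fun B : ℝ => Real.log ((exceptional T α κ c B).ncard : ℝ) / Real.log B)
              atTop (𝓝 ((Module.finrank ℚ K : ℝ) * (2 - κ)))) := by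
  intro K _ _ T hT q hq α hα0 hα κ c hκ0 hκ2
  classical
  have hdef : ∀ B : ℝ, exceptional T α κ c B = Pool.Agent.W221.Exc.exceptional T α κ c B :=
    fun B => rfl
  set d : ℝ := (Module.finrank ℚ K : ℝ) with hd
  have hdpos : 0 < d := by
    rw [hd]
    exact_mod_cast Module.finrank_pos
  have hfin : ∀ B : ℝ, 1 ≤ B → (exceptional T α κ c B).Finite := by
    obtain ⟨C, hC⟩ := Pool.Agent.W221.Exc.upper T hT hq α hα0 hα κ c 1 (max (2 - κ) (8 / 7)) hκ0
      one_pos ((by norm_num : (0 : ℝ) ≤ 8 / 7).trans (le_max_right _ _))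
      (Pool.Agent.H691R3.sel_all hq κ)
    intro B hB
    rw [hdef]
    exact (hC B hB).1
  obtain ⟨C, B0, hC, hB0, hlow⟩ := Pool.Agent.W221.Exc.lower T hq α hα0 hα κ c hκ0 hκ2
  have hlow2 : ∀ B : ℝ, B0 ≤ B → C * B ^ (d * (2 - κ)) ≤ ((exceptional T α κ c B).ncard : ℝ) := by
    intro B hB
    obtain ⟨E, hE, hcard⟩ := hlow B hB
    refine hcard.trans ?_
    have h1 : (E : Set K).ncard ≤ (exceptional T α κ c B).ncard :=
      Set.ncard_le_ncard hE (hfin B (hB0.trans hB))
    rw [Set.ncard_coe_finset] at h1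
    exact_mod_cast h1
  refine ⟨hfin, ⟨C, hC, ?_⟩, ?_⟩
  · filter_upwards [eventually_ge_atTop B0] with B hB
    exact hlow2 B hB
  intro hcase
  have hsel : Pool.Agent.H691R3.Sel.{0} q κ (2 - κ) := by
    rcases hcase with h | ⟨rfl, h⟩ | rfl
    · have h1 := Pool.Agent.H691R3.sel_all.{0} hq κ
      rwa [max_eq_left (by linarith)] at h1
    · exact Pool.Agent.W221.Exc.sel_below_one (by norm_num)
        (Pool.Agent.W221.Exc.sel_three_one 1 le_rfl) h
    · have h1 := Pool.Agent.H691R3.sel_two.{0} (q := 2) le_rfl κ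
      have h2 : (2 : ℝ) - 2 * κ / ((2 : ℕ) : ℝ) = 2 - κ := by push_cast; ring
      rwa [h2] at h1
  have hup : ∀ δ : ℝ, 0 < δ → ∃ C : ℝ, ∀ B : ℝ, 1 ≤ B →
      ((exceptional T α κ c B).ncard : ℝ) ≤ C * B ^ (d * (2 - κ) + δ) := by
    intro δ hδ
    obtain ⟨C', hC'⟩ := Pool.Agent.W221.Exc.upper T hT hq α hα0 hα κ c δ (2 - κ) hκ0 hδ
      (by linarith) hsel
    refine ⟨C', fun B hB => ?_⟩
    rw [hdef]
    exact (hC' B hB).2
  refine ⟨hup, ?_⟩
  rw [tendsto_order]
  constructor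
  · intro a ha
    -- lower bound
    have hev : ∀ᶠ B : ℝ in atTop, (-Real.log C) / (d * (2 - κ) - a) < Real.log B :=
      Real.tendsto_log_atTop.eventually_gt_atTop _
    filter_upwards [hev, eventually_ge_atTop B0, eventually_gt_atTop (1 : ℝ)] with B h1 h2 h3
    have hBpos : 0 < B := by linarith
    have hlogB : 0 < Real.log B := Real.log_pos h3
    have h4 := Real.log_le_log (by positivity) (hlow2 B h2)
    rw [Real.log_mul hC.ne' (by positivity), Real.log_rpow hBpos] at h4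
    rw [lt_div_iff₀ hlogB]
    rw [div_lt_iff₀ (by linarith)] at h1
    linarith
  · intro a ha
    set δ : ℝ := (a - d * (2 - κ)) / 2 with hδ
    have hδ0 : 0 < δ := by rw [hδ]; linarith
    obtain ⟨C', hC'⟩ := hup δ hδ0
    have hev : ∀ᶠ B : ℝ in atTop, Real.log (max C' 1) / δ < Real.log B :=
      Real.tendsto_log_atTop.eventually_gt_atTop _
    filter_upwards [hev, eventually_ge_atTop B0, eventually_gt_atTop (1 : ℝ)] with B h1 h2 h3
    have hBpos : 0 < B := by linarith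
    have hlogB : 0 < Real.log B := Real.log_pos h3
    have hpos : 0 < ((exceptional T α κ c B).ncard : ℝ) :=
      lt_of_lt_of_le (by positivity) (hlow2 B h2)
    have h4 : ((exceptional T α κ c B).ncard : ℝ) ≤ max C' 1 * B ^ (d * (2 - κ) + δ) :=
      (hC' B h3.le).trans (mul_le_mul_of_nonneg_right (le_max_left _ _) (by positivity))
    have h5 := Real.log_le_log hpos h4
    have hmax : 0 < max C' 1 := lt_of_lt_of_le one_pos (le_max_right _ _)
    rw [Real.log_mul hmax.ne' (by positivity), Real.log_rpow hBpos] at h5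
    rw [div_lt_iff₀ hlogB]
    rw [div_lt_iff₀ hδ0] at h1
    have h6 : a = d * (2 - κ) + 2 * δ := by rw [hδ]; ring
    rw [h6]
    linarith

private theorem intermediate_part :
    ∀ (K : Type) [Field K] [NumberField K]
      (T : Set (HeightOneSpectrum (RingOfIntegers K))), T.Finite →
      ∀ (q : ℕ), 3 ≤ q → ∀ (α : Fin q → K × K),
        (∀ i, α i ≠ 0) →
        (∀ i j, i ≠ j → (α i).1 * (α j).2 - (α i).2 * (α j).1 ≠ 0) →
        ∀ κ c δ : ℝ, 0 ≤ κ → κ ≤ q → 0 < δ →
          ∃ C : ℝ, ∀ B : ℝ, 1 ≤ B → (exceptional T α κ c B).Finite ∧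
            ((exceptional T α κ c B).ncard : ℝ) ≤
              C * B ^ ((Module.finrank ℚ K : ℝ) * expoThree (3 * κ / q) + δ) := by
  intro K _ _ T hT q hq α hα0 hα κ c δ hκ0 hκq hδ
  have hqR : (0 : ℝ) < q := by
    have : 0 < q := by omega
    exact_mod_cast this
  have ht : 3 * κ / q ≤ 3 := by
    rw [div_le_iff₀ hqR]
    linarith
  have hnn : ∀ t : ℝ, t ≤ 3 → 0 ≤ expoThree t := by
    intro t ht
    unfold expoThree
    by_cases h1 : t ≤ 1
    · rw [if_pos h1]; linarith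
    rw [if_neg h1]
    by_cases h2 : t ≤ 4 / 3
    · rw [if_pos h2]; linarith
    rw [if_neg h2]
    by_cases h3 : t ≤ 17 / 12
    · rw [if_pos h3]; linarith
    rw [if_neg h3]
    by_cases h4 : t ≤ 3 / 2
    · rw [if_pos h4]; linarith
    rw [if_neg h4]
    by_cases h5 : t ≤ 17 / 10
    · rw [if_pos h5]; linarith
    rw [if_neg h5]
    by_cases h6 : t ≤ 7 / 4
    · rw [if_pos h6]; linarith
    rw [if_neg h6]
    by_cases h7 : t ≤ 9 / 5
    · rw [if_pos h7]; linarith
    rw [if_neg h7]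
    by_cases h8 : t ≤ 13 / 7
    · rw [if_pos h8]; linarith
    rw [if_neg h8]
    by_cases h9 : t ≤ 19 / 10
    · rw [if_pos h9]; linarith
    rw [if_neg h9]
    by_cases h10 : t ≤ 8512 / 4185
    · rw [if_pos h10]; linarith
    rw [if_neg h10]
    by_cases h11 : t ≤ 94 / 45
    · rw [if_pos h11]; linarith
    rw [if_neg h11]
    by_cases h12 : t ≤ 47 / 22
    · rw [if_pos h12]; linarith
    rw [if_neg h12]
    by_cases h13 : t ≤ 24 / 11
    · rw [if_pos h13]; linarith
    rw [if_neg h13]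
    linarith
  have hsel : Pool.Agent.H691R3.Sel.{0} q κ (expoThree (3 * κ / q)) := by
    refine Pool.Agent.W221.Exc.sel_restrict (r := 3) (by norm_num) hq ?_
    have h := Pool.Agent.W221.Exc.sel_E3.{0} (((3 : ℕ) : ℝ) * κ / q)
    have e : ((3 : ℕ) : ℝ) * κ / q = 3 * κ / q := by norm_num
    rw [e] at h ⊢
    exact h
  exact Pool.Agent.W221.Exc.upper T hT (by omega) α hα0 hα κ c δ _ hκ0 hδ (hnn _ ht) hsel

/-- Let `K` be a number field of degree `d`, `T` a finite set of primes, `α_1, …, α_q` (`q ≥ 2`)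
distinct points of the projective line over `K`, `κ ≥ 0` and `c` real, and let `N(B)` be the
number of `x ∈ K` of height `H(x) ≤ B`, different from the `α_l`, with
`∑_{v ∉ T} ∑_l λ^(1)_v(α_l, x) < (q - κ) h(x) + c`.

* If `κ < 2`, then `N(B)` is finite for all `B ≥ 1` and `N(B) ≥ C B ^ (d (2 - κ))` for all large
`B`, with a constant `C > 0`. If moreover `κ ≤ 6/7`, or `q = 3` and `κ ≤ 1`, or `q = 2`, then
`N(B) = O(B ^ (d (2 - κ) + δ))` for every `δ > 0`, and `log N(B) / log B → d (2 - κ)`.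
* If `q ≥ 3` and `κ ≤ q`, then, for every `δ > 0` and `B ≥ 1`, `N(B)` is finite and
`O(B ^ (d e + δ))`, where `e = expoThree (3 κ / q)`. -/
theorem result :
    ∀ (K : Type) [Field K] [NumberField K]
      (T : Set (HeightOneSpectrum (RingOfIntegers K))), T.Finite →
      ∀ (q : ℕ), 2 ≤ q → ∀ (α : Fin q → K × K),
        (∀ i, α i ≠ 0) →
        (∀ i j, i ≠ j → (α i).1 * (α j).2 - (α i).2 * (α j).1 ≠ 0) →
        ∀ κ c : ℝ, 0 ≤ κ →
          (κ < 2 →
            (∀ B : ℝ, 1 ≤ B → (exceptional T α κ c B).Finite) ∧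
            (∃ C : ℝ, 0 < C ∧ ∀ᶠ B : ℝ in atTop,
              C * B ^ ((Module.finrank ℚ K : ℝ) * (2 - κ)) ≤
                ((exceptional T α κ c B).ncard : ℝ)) ∧
            (κ ≤ 6 / 7 ∨ (q = 3 ∧ κ ≤ 1) ∨ q = 2 →
              (∀ δ : ℝ, 0 < δ → ∃ C : ℝ, ∀ B : ℝ, 1 ≤ B →
                ((exceptional T α κ c B).ncard : ℝ) ≤
                  C * B ^ ((Module.finrank ℚ K : ℝ) * (2 - κ) + δ)) ∧
              Tendsto (fun B : ℝ => Real.log ((exceptional T α κ c B).ncard : ℝ) / Real.log B)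
                atTop (𝓝 ((Module.finrank ℚ K : ℝ) * (2 - κ))))) ∧
          (3 ≤ q → κ ≤ q → ∀ δ : ℝ, 0 < δ →
            ∃ C : ℝ, ∀ B : ℝ, 1 ≤ B → (exceptional T α κ c B).Finite ∧
              ((exceptional T α κ c B).ncard : ℝ) ≤
                C * B ^ ((Module.finrank ℚ K : ℝ) * expoThree (3 * κ / q) + δ)) := by
  intro K _ _ T hT q hq α hα0 hα κ c hκ0
  exact ⟨fun hκ2 => exact_part K T hT q hq α hα0 hα κ c hκ0 hκ2,
    fun hq3 hκq δ hδ => intermediate_part K T hT q hq3 α hα0 hα κ c δ hκ0 hκq hδ⟩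

end Pool.Agent.Results.MP_4d5ce1_nt.ExceptionalSetExponents
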