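import Pool.Agent.W4.QD.All3
import Pool.Agent.W4.QD.Conj2
import Pool.Agent.W4.CF.Htq

/-!
The abc conjecture for finite subsets of the projective line that contain points of degree at least
three: bounds for the number of the rational points `x` that violate the inequality.
-/

set_option autoImplicit false

namespace Pool.Agent.Results.MP_4d5ce1_nt.HighDegreeFactors

open NumberField IsDedekindDomain

/-- the absolute logarithmic height of the point `[x : 1]` -/
noncomputable def height {K : Type} [Field K] [NumberField K] (x : K) : ℝ :=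
  (∑ w : InfinitePlace K, (w.mult : ℝ) * Real.log (max (w x) (w 1)) +
    ∑ᶠ v : HeightOneSpectrum (RingOfIntegers K),
      Real.log (max (FinitePlace.mk v x) (FinitePlace.mk v 1))) /
    (Module.finrank ℚ K : ℝ)

/-- the truncated counting function of the point `[x : 1]` with respect to the points
`[(α l).1 : (α l).2]`: the sum over the primes outside `T` and over `l` of the truncated local
heights -/
noncomputable def counting {K : Type} [Field K] [NumberField K]
    (T : Set (HeightOneSpectrum (RingOfIntegers K))) {q : ℕ} (α : Fin q → K × K) (x : K) : ℝ :=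
  ∑ᶠ (v : HeightOneSpectrum (RingOfIntegers K)) (_ : v ∉ T),
    ∑ l : Fin q,
      min
        (Real.log
            (max (FinitePlace.mk v x) (FinitePlace.mk v 1) *
              max (FinitePlace.mk v (α l).1) (FinitePlace.mk v (α l).2) /
              FinitePlace.mk v (x * (α l).2 - 1 * (α l).1)) /
          (Module.finrank ℚ K : ℝ))
        (Real.log (Ideal.absNorm v.asIdeal : ℝ) / (Module.finrank ℚ K : ℝ))

/-- the set of the `x ∈ ℚ` of height `H(x) ≤ B`, different from the `α_l`, with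
`∑_{v ∉ T} ∑_l λ^(1)_v(α_l, x) < (q - κ) h(x) + c₀` -/
def exceptional {K : Type} [Field K] [NumberField K]
    (T : Set (HeightOneSpectrum (RingOfIntegers K))) {q : ℕ} (α : Fin q → K × K)
    (κ c₀ B : ℝ) : Set ℚ :=
  {x : ℚ | (∀ l, (x : K) * (α l).2 - 1 * (α l).1 ≠ 0) ∧ Real.exp (height (x : K)) ≤ B ∧
    counting T α (x : K) < (q - κ) * height (x : K) + c₀}

/-- the exponent -/
noncomputable def exponent (q : ℕ) (β κ : ℝ) : ℝ :=
  min (((2 * (1 - β) / q + 1) / (2 - β)) * (q - κ))
    (max (q - κ - (((q : ℝ) - 2) * (1 - β)) / (2 - β))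
      ((β * (q - κ) + (q : ℝ) * (1 - β)) / (4 - 3 * β)))

open Polynomial in
/-- Let `g_1, …, g_r ∈ ℤ[X]`, `r ≥ 1`, be irreducible over `ℚ` of degrees at least `3`, let
`f = g_1 ⋯ g_r h` be squarefree and `q ∈ {deg f, deg f + 1}`. Let `K` be a number field in which the
form `∑_j f_j X^j Y^(q-j)` has `q` zeros `α_1, …, α_q`, that is, distinct points of the projective
line over `K`. Let `T` be a finite set of primes of `K`, `2 ≤ κ ≤ q`, `c₀` real, `δ > 0` and
`β = 1 / (deg g_1 + ⋯ + deg g_r)`. Then at most `C B ^ (exponent q β κ + δ)` rational numbers `x` of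
height `H(x) ≤ B` satisfy `∑_{v ∉ T} ∑_l λ^(1)_v(α_l, x) < (q - κ) h(x) + c₀`. -/
theorem result :
    ∀ (K : Type) [Field K] [NumberField K]
      (T : Set (HeightOneSpectrum (RingOfIntegers K))), T.Finite →
      ∀ (q : ℕ), 3 ≤ q → ∀ (α : Fin q → K × K),
        (∀ i, α i ≠ 0) →
        (∀ i j, i ≠ j → (α i).1 * (α j).2 - (α i).2 * (α j).1 ≠ 0) →
        ∀ (r : ℕ), 1 ≤ r → ∀ (g : Fin r → ℤ[X]) (h : ℤ[X]),
        (∀ j, Irreducible ((g j).map (Int.castRingHom ℚ)) ∧ 3 ≤ (g j).natDegree) →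
        Squarefree (((∏ j, g j) * h).map (Int.castRingHom ℚ)) →
        ((∏ j, g j) * h).natDegree ≤ q → q ≤ ((∏ j, g j) * h).natDegree + 1 →
        (∀ i, ∑ j ∈ Finset.range (q + 1),
          (((∏ j, g j) * h).coeff j : K) * (α i).1 ^ j * (α i).2 ^ (q - j) = 0) →
        ∀ κ c₀ δ : ℝ, 2 ≤ κ → κ ≤ q → 0 < δ →
          ∃ C : ℝ, 0 < C ∧ ∀ B : ℝ, 1 ≤ B →
            (exceptional T α κ c₀ B).Finite ∧
            ((exceptional T α κ c₀ B).ncard : ℝ) ≤
              C * B ^ (exponent q (1 / ((∑ j, (g j).natDegree : ℕ) : ℝ)) κ + δ) := by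
  intro K _ _ T hT q hq α hα0 hα r hr g h hg hs1 hs2 hs3 hF κ c₀ δ h2 h3 hδ
  exact Pool.Agent.W4.QD.conj_main2 Pool.Agent.W4.QD.hTRF Pool.Agent.W4.QD.hHF
    Pool.Agent.W462.QD.t_CNTQ Pool.Agent.W4.CF.t_HTQ K T hT q hq α hα0 hα r hr g h hg
    ⟨hs1, hs2, hs3⟩ hF κ c₀ δ h2 h3 hδ

end Pool.Agent.Results.MP_4d5ce1_nt.HighDegreeFactors
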