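import Pool.Agent.W347.RB.BCEL
import Pool.Agent.W33.RB.BGP
import Pool.Agent.W863.RB.BGAP
import Pool.Agent.W906.RB.BSGL
import Pool.Agent.W196.RB.BPRT
import Pool.Agent.W64.RB.BMAIN

/-! Radicals of values of a product of at least four pairwise independent integral linear forms:
a power saving without effective height restriction. -/

namespace Pool.Agent.Results.MP_4d5ce1_nt.RadicalsOfForms

theorem result : ∀ (d : ℕ) (α β : Fin d → ℤ), 4 ≤ d → (∀ i j, i ≠ j → α i * β j ≠ α j * β i) →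
    ∀ δ ε : ℝ, 0 < δ → 0 < ε → ∃ C : ℝ, ∀ X : ℝ, 1 ≤ X →
      (({R : ℕ | (R : ℝ) ≤ X ∧ ∃ x y : ℤ, IsCoprime x y ∧ ∏ i, (α i * x + β i * y) ≠ 0 ∧
        ∏ p ∈ (∏ i, (α i * x + β i * y)).natAbs.primeFactors, p = R ∧
        Real.log (Real.log (max |(x : ℝ)| |(y : ℝ)|)) ≤ X ^ δ}.ncard : ℕ) : ℝ) ≤
      C * X ^ (4 / 5 + δ + ε) :=
  fun d α β hd h => Pool.Agent.W64.RB.BMAIN.tBMAIN
    (Pool.Agent.W863.RB.tBGAP Pool.Agent.W347.RBBCEL.tBCEL Pool.Agent.W33.RB.tBGP)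
    Pool.Agent.W906.RB.tBSGL Pool.Agent.W196.RB.tBPRT d α β ⟨hd, h⟩

end Pool.Agent.Results.MP_4d5ce1_nt.RadicalsOfForms
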